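import Pool.Agent.helper50.NPT.Spec1

set_option autoImplicit false

namespace NPT

open scoped Classical
open AN

section

variable {R : Type} [CommRing R] {g : ℕ} {γ : Fin g → ℕ} {a : ℕ → LS R}

lemma CRD_add (f h : LS R) : crd γ a (f + h) = crd γ a f + crd γ a h := by
  funext i
  show res ((f + h) * om γ a ((γ i : ℤ) - 1)) = res (f * om γ a ((γ i : ℤ) - 1)) + res (h * om γ a ((γ i : ℤ) - 1))
  rw [add_mul, res_add]

lemma CRD_C (c : R) (f : LS R) : crd γ a (LS.C c * f) = fun i => c * crd γ a f i := by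
  funext i
  show res (LS.C c * f * om γ a ((γ i : ℤ) - 1)) = c * res (f * om γ a ((γ i : ℤ) - 1))
  rw [mul_assoc, C_mul, res_smul]

lemma CRD_zero : crd γ a (0 : LS R) = 0 := by
  funext i
  show res (0 * om γ a ((γ i : ℤ) - 1)) = 0
  rw [zero_mul, res_zero]

lemma CRD_sum {ι : Type} (s : Finset ι) (f : ι → LS R) : crd γ a (∑ j ∈ s, f j) = ∑ j ∈ s, crd γ a (f j) := by
  induction s using Finset.induction_on with
  | empty => rw [Finset.sum_empty, Finset.sum_empty, CRD_zero]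
  | insert x s hx ih => rw [Finset.sum_insert hx, Finset.sum_insert hx, CRD_add, ih]

lemma CRD_mono (n : ℤ) (c : R) : (mono n c : LS R) = LS.C c * mono n 1 := by
  rw [C_mul, smul_mono, mul_one]

lemma CRD_ee (γ : Fin g → ℕ) (x : Fin g → R) : ee γ x = ∑ j, LS.C (x j) * mono (-(γ j : ℤ)) (1 : R) := by
  unfold ee
  exact Finset.sum_congr rfl fun j _ => CRD_mono _ _

lemma CRD_eecrd (hKD : KD_stmt) (hK : IsK γ a) (x : Fin g → R) : crd γ a (ee γ x) = x := by
  obtain ⟨_, _, h3, _, _⟩ := hKD R g γ a hK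
  rw [CRD_ee, CRD_sum]
  funext i
  rw [Finset.sum_apply]
  have h : ∀ j, crd γ a (LS.C (x j) * mono (-(γ j : ℤ)) (1 : R)) i = if i = j then x j else 0 := by
    intro j
    rw [CRD_C]
    show x j * res (mono (-(γ j : ℤ)) 1 * om γ a ((γ i : ℤ) - 1)) = _
    rw [h3 i j]
    split_ifs
    · rw [mul_one]
    · rw [mul_zero]
  rw [Finset.sum_congr rfl fun j _ => h j]
  simp

lemma CRD_iff (hKD : KD_stmt) (hK : IsK γ a) (f : LS R) :
    crd γ a f = 0 ↔ ∃ α ∈ AA γ a, ∃ o ∈ PS R, f = α + o := by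
  obtain ⟨_, h2, _, h4, h5⟩ := hKD R g γ a hK
  constructor
  · intro h
    exact h4 f fun i => congrFun h i
  · rintro ⟨α, hα, o, ho, rfl⟩
    rw [CRD_add]
    funext i
    show res (α * om γ a ((γ i : ℤ) - 1)) + res (o * om γ a ((γ i : ℤ) - 1)) = 0
    rw [h5 _ (Or.inr ⟨i, rfl⟩) α hα, res_PS (PS_mul ho (h2 i)), add_zero]

lemma CRD_dec (hKD : KD_stmt) (hK : IsK γ a) (f : LS R) :
    ∃ α ∈ AA γ a, ∃ o ∈ PS R, f = α + ee γ (crd γ a f) + o := by
  have h : crd γ a (f - ee γ (crd γ a f)) = 0 := by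
    have h1 := CRD_add (γ := γ) (a := a) (f - ee γ (crd γ a f)) (ee γ (crd γ a f))
    rw [sub_add_cancel, CRD_eecrd hKD hK] at h1
    have h2 : (0 : Fin g → R) + crd γ a f = crd γ a (f - ee γ (crd γ a f)) + crd γ a f := by
      rw [← h1, zero_add]
    exact (add_right_cancel h2).symm
  obtain ⟨α, hα, o, ho, he⟩ := (CRD_iff hKD hK _).1 h
  refine ⟨α, hα, o, ho, ?_⟩
  rw [sub_eq_iff_eq_add] at he
  rw [he]
  have h3 : crd γ a (α + o + ee γ (crd γ a f)) = crd γ a f := by rw [← he]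
  rw [h3]
  ring

lemma CRD_powA (hKB : KB_stmt) (hK : IsK γ a) {f : LS R} (hf : f ∈ AA γ a) (n : ℕ) : f ^ n ∈ AA γ a := by
  obtain ⟨_, h2, _, h4, _⟩ := hKB R g γ a hK
  induction n with
  | zero =>
    rw [pow_zero, ← map_one LS.C]
    exact h2 1
  | succ n ih =>
    rw [pow_succ]
    exact h4 _ ih _ hf

lemma CRD_powP {f : LS R} (hf : f ∈ PS R) (n : ℕ) : f ^ n ∈ PS R := by
  induction n with
  | zero =>
    rw [pow_zero]
    exact one_mem_PS
  | succ n ih =>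
    rw [pow_succ]
    exact PS_mul ih hf

lemma CRD_inj : Function.Injective (LS.C : R →+* LS R) := by
  intro x y h
  have h1 := congrArg (fun f => cf f 0) h
  simp only [cf_C, if_true] at h1
  exact h1

end

theorem CRD (hKB : KB_stmt) (hKD : KD_stmt) (hKE : KE_stmt) : CRD_stmt := by
  intro p hp R _ hch g γ a hK
  refine ⟨CRD_add, CRD_iff hKD hK, CRD_eecrd hKD hK, ?_, ?_⟩
  · intro f
    haveI : CharP (LS R) p := charP_of_injective_ringHom CRD_inj p
    obtain ⟨α, hα, o, ho, hf⟩ := CRD_dec hKD hK f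
    obtain ⟨c, hc⟩ : ∃ c, c = crd γ a f := ⟨_, rfl⟩
    rw [← hc] at hf ⊢
    have hfp : f ^ p = (α ^ p + o ^ p) + ∑ j, LS.C (c j ^ p) * (mono (-(γ j : ℤ)) (1 : R)) ^ p := by
      rw [hf, add_pow_char, add_pow_char, CRD_ee, sum_pow_char]
      have h : ∀ j, (LS.C (c j) * mono (-(γ j : ℤ)) (1 : R)) ^ p = LS.C (c j ^ p) * (mono (-(γ j : ℤ)) (1 : R)) ^ p := by
        intro j
        rw [mul_pow, map_pow]
      rw [Finset.sum_congr rfl fun j _ => h j]
      ring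
    rw [hfp, CRD_add, (CRD_iff hKD hK (α ^ p + o ^ p)).2 ⟨_, CRD_powA hKB hK hα p, _, CRD_powP ho p, rfl⟩, zero_add,
      CRD_sum]
    funext i
    rw [Finset.sum_apply]
    show _ = ∑ j, HW p γ a i j * c j ^ p
    refine Finset.sum_congr rfl fun j _ => ?_
    rw [CRD_C]
    obtain ⟨β, hβ, q, hq, he⟩ := hKE p R g γ a hK j
    have h1 : (mono (-(γ j : ℤ)) (1 : R)) ^ p = ee γ (fun i => HW p γ a i j) + (β + q) := by
      rw [he]
      unfold ee
      ring
    rw [h1, CRD_add, CRD_eecrd hKD hK, (CRD_iff hKD hK (β + q)).2 ⟨β, hβ, q, hq, rfl⟩, add_zero]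
    ring
  · intro ω hω hωP f
    obtain ⟨α, hα, o, ho, hf⟩ := CRD_dec hKD hK f
    obtain ⟨c, hc⟩ : ∃ c, c = crd γ a f := ⟨_, rfl⟩
    rw [← hc] at hf ⊢
    obtain ⟨_, _, _, _, _, _, h7, h8⟩ := hKB R g γ a hK
    rw [hf, add_mul, add_mul, res_add, res_add, h8 _ (h7 α hα ω hω), res_PS (PS_mul ho hωP), zero_add, add_zero, CRD_ee,
      Finset.sum_mul, res_sum]
    show _ = ∑ j, res (mono (-(γ j : ℤ)) (1 : R) * ω) * c j
    refine Finset.sum_congr rfl fun j _ => ?_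
    rw [mul_assoc, C_mul, res_smul, mul_comm]

end NPT
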